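import Mathlib

/-!
# A planar digraph of digirth four with star dichromatic number 3/2

The digraph has eight vertices and fourteen arcs.
-/

namespace Pool.Agent.Results.MP_ff0133_co.EightVertices

/-! ## Definitions -/

section Defs

variable {V : Type}

/-- A digraph is given by its arc relation.  It is simple if it has no loops and no pair of
opposite arcs. -/
def IsSimpleDigraph (A : V → V → Prop) : Prop :=
  (∀ v, ¬ A v v) ∧ ∀ u v, A u v → ¬ A v u

/-- the underlying undirected graph -/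
def underlying (A : V → V → Prop) : SimpleGraph V := SimpleGraph.fromRel A

/-- `S` is acyclic: the subdigraph induced on `S` has no directed closed walk
(equivalently, no directed cycle). -/
def AcyclicSet (A : V → V → Prop) (S : Set V) : Prop :=
  ∀ v, ¬ Relation.TransGen (fun a b => a ∈ S ∧ b ∈ S ∧ A a b) v v

/-- an acyclic `(k,d)`-colouring: for every `i` the set of vertices with colour in
`{i, i+1, ..., i+d-1}` is acyclic -/
def IsAcyclicColouring (A : V → V → Prop) (k d : ℕ) (c : V → ZMod k) : Prop :=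
  ∀ i : ZMod k, AcyclicSet A {v | ∃ j : ℕ, j < d ∧ c v = i + (j : ZMod k)}

/-- the set of all ratios `k/d` for which there is an acyclic `(k,d)`-colouring -/
def ratios (A : V → V → Prop) : Set ℝ :=
  {q | ∃ k d : ℕ, 1 ≤ d ∧ d ≤ k ∧ (∃ c : V → ZMod k, IsAcyclicColouring A k d c) ∧
    q = (k : ℝ) / (d : ℝ)}

/-- the star dichromatic number -/
noncomputable def starDichromatic (A : V → V → Prop) : ℝ := sInf (ratios A)

/-- `G` has a crossing-free straight-line drawing in the plane: the vertices are distinct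
points, the closed segment of an edge contains no vertex other than its ends, and the segments
of two different edges meet at most in a common end. (By Fáry's theorem this is equivalent to
planarity for finite simple graphs.) -/
def HasStraightLineDrawing (G : SimpleGraph V) : Prop :=
  ∃ p : V → ℝ × ℝ, Function.Injective p ∧
    (∀ u v w : V, G.Adj u v → p w ∈ segment ℝ (p u) (p v) → w = u ∨ w = v) ∧
    (∀ u v x y : V, G.Adj u v → G.Adj x y → s(u, v) ≠ s(x, y) →
      ∀ q, q ∈ segment ℝ (p u) (p v) → q ∈ segment ℝ (p x) (p y) →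
        ∃ w, (w = u ∨ w = v) ∧ (w = x ∨ w = y) ∧ q = p w)

/-- there is a directed cycle of length `l`: distinct vertices `c 0, ..., c (l - 1)` with an arc
from each one to the cyclically next one -/
def HasDirectedCycle (A : V → V → Prop) (l : ℕ) : Prop :=
  1 ≤ l ∧ ∃ c : ZMod l → V, Function.Injective c ∧ ∀ i, A (c i) (c (i + 1))

/-- the digirth is `g`: `g` is the length of a shortest directed cycle -/
def HasDigirth (A : V → V → Prop) (g : ℕ) : Prop := IsLeast {l | HasDirectedCycle A l} g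

end Defs

/-! ## The digraph -/

/-- the fourteen arcs -/
def arcs : Finset (Fin 8 × Fin 8) :=
  {(0, 2), (1, 3), (2, 5), (2, 7), (3, 6), (3, 7), (4, 0), (4, 1), (5, 1), (5, 4), (6, 0),
    (6, 4), (7, 5), (7, 6)}

/-- the digraph -/
def D (u v : Fin 8) : Prop := (u, v) ∈ arcs

instance : DecidableRel D := fun u v => inferInstanceAs (Decidable ((u, v) ∈ arcs))

/-! ## Planarity -/

/-- coordinates of the vertices -/
def cx : Fin 8 → ℤ := ![0, 4, 1, 3, 4, 5, 2, 1]

/-- coordinates of the vertices -/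
def cy : Fin 8 → ℤ := ![4, 2, 0, 1, 5, 0, 4, 1]

/-- orientation of a triple of vertices -/
def orient (a b c : Fin 8) : ℤ :=
  (cx b - cx a) * (cy c - cy a) - (cy b - cy a) * (cx c - cx a)

/-- the drawing -/
def pos (v : Fin 8) : ℝ × ℝ := ((cx v : ℝ), (cy v : ℝ))

/-- orientation of two vertices and a point -/
def orR (a b : Fin 8) (q : ℝ × ℝ) : ℝ :=
  ((cx b : ℝ) - cx a) * (q.2 - cy a) - ((cy b : ℝ) - cy a) * (q.1 - cx a)

lemma orR_pos (a b c : Fin 8) : orR a b (pos c) = (orient a b c : ℝ) := by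
  simp only [orR, pos, orient]
  push_cast
  ring

lemma orR_self (a b : Fin 8) {q : ℝ × ℝ} (h : q ∈ segment ℝ (pos a) (pos b)) :
    orR a b q = 0 := by
  obtain ⟨s, t, hs, ht, hst, rfl⟩ := h
  have hs' : s = 1 - t := by linarith
  simp only [orR, pos, Prod.smul_mk, smul_eq_mul, Prod.mk_add_mk, hs']
  ring

/-- the orientation of a point of a segment is a convex combination -/
lemma orR_segment (a b c d : Fin 8) {q : ℝ × ℝ} (h : q ∈ segment ℝ (pos c) (pos d)) :
    ∃ s t : ℝ, 0 ≤ s ∧ 0 ≤ t ∧ s + t = 1 ∧ q = s • pos c + t • pos d ∧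
      orR a b q = s * orient a b c + t * orient a b d := by
  obtain ⟨s, t, hs, ht, hst, rfl⟩ := h
  refine ⟨s, t, hs, ht, hst, rfl, ?_⟩
  have hs' : s = 1 - t := by linarith
  simp only [orR, pos, Prod.smul_mk, smul_eq_mul, Prod.mk_add_mk, hs', orient]
  push_cast
  ring

/-- separated segments do not meet -/
lemma separated {a b c d : Fin 8}
    (h : (0 < orient a b c ∧ 0 < orient a b d) ∨ (orient a b c < 0 ∧ orient a b d < 0))
    {q : ℝ × ℝ} (h1 : q ∈ segment ℝ (pos a) (pos b)) (h2 : q ∈ segment ℝ (pos c) (pos d)) :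
    False := by
  have e1 := orR_self a b h1
  obtain ⟨s, t, hs, ht, hst, -, e2⟩ := orR_segment a b c d h2
  rw [e1] at e2
  rcases h with ⟨hc, hd⟩ | ⟨hc, hd⟩
  · have hc' : (0 : ℝ) < orient a b c := by exact_mod_cast hc
    have hd' : (0 : ℝ) < orient a b d := by exact_mod_cast hd
    rcases eq_or_lt_of_le hs with h0 | h0
    · have : t = 1 := by linarith
      subst this
      nlinarith
    · nlinarith [mul_pos h0 hc', mul_nonneg ht hd'.le]
  · have hc' : (orient a b c : ℝ) < 0 := by exact_mod_cast hc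
    have hd' : (orient a b d : ℝ) < 0 := by exact_mod_cast hd
    rcases eq_or_lt_of_le hs with h0 | h0
    · have : t = 1 := by linarith
      subst this
      nlinarith
    · nlinarith [mul_pos h0 (neg_pos.2 hc'), mul_nonneg ht (neg_pos.2 hd').le]

/-- two segments with a common end and different directions meet only there -/
lemma common_end {a b c : Fin 8} (h : orient a b c ≠ 0) {q : ℝ × ℝ}
    (h1 : q ∈ segment ℝ (pos a) (pos b)) (h2 : q ∈ segment ℝ (pos a) (pos c)) :
    q = pos a := by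
  have e1 := orR_self a b h1
  obtain ⟨s, t, hs, ht, hst, hq, e2⟩ := orR_segment a b a c h2
  have h0 : orient a b a = 0 := by
    unfold orient
    ring
  rw [e1, h0] at e2
  have h' : (orient a b c : ℝ) ≠ 0 := by exact_mod_cast h
  have ht0 : t = 0 := by
    simp only [Int.cast_zero, mul_zero, zero_add] at e2
    exact (mul_eq_zero.1 e2.symm).resolve_right h'
  have hs1 : s = 1 := by linarith
  rw [hq, ht0, hs1]
  simp

set_option maxRecDepth 100000 in
/-- no vertex lies on the line of an edge -/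
lemma general : ∀ e ∈ arcs, ∀ w : Fin 8, w ≠ e.1 → w ≠ e.2 → orient e.1 e.2 w ≠ 0 := by
  decide

lemma orient_swap (a b c : Fin 8) : orient b a c = - orient a b c := by
  unfold orient
  ring

set_option maxRecDepth 100000 in
/-- two arcs without common end are separated -/
lemma disjoint_arcs : ∀ e ∈ arcs, ∀ f ∈ arcs, e.1 ≠ f.1 → e.1 ≠ f.2 → e.2 ≠ f.1 → e.2 ≠ f.2 →
    ((0 < orient e.1 e.2 f.1 ∧ 0 < orient e.1 e.2 f.2) ∨
      (orient e.1 e.2 f.1 < 0 ∧ orient e.1 e.2 f.2 < 0)) ∨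
    ((0 < orient f.1 f.2 e.1 ∧ 0 < orient f.1 f.2 e.2) ∨
      (orient f.1 f.2 e.1 < 0 ∧ orient f.1 f.2 e.2 < 0)) := by
  decide

lemma adj_cases {u v : Fin 8} (h : (underlying D).Adj u v) :
    ((u, v) ∈ arcs ∨ (v, u) ∈ arcs) ∧ u ≠ v := by
  rw [underlying, SimpleGraph.fromRel_adj] at h
  exact ⟨h.2, h.1⟩

lemma general' {u v w : Fin 8} (h : (underlying D).Adj u v) (hu : w ≠ u) (hv : w ≠ v) :
    orient u v w ≠ 0 := by
  obtain ⟨h | h, -⟩ := adj_cases h
  · exact general (u, v) h w hu hv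
  · have := general (v, u) h w hv hu
    rw [orient_swap] at this
    simpa using this

lemma pos_injective : Function.Injective pos := by
  intro u v h
  have h1 : (cx u : ℝ) = cx v := congrArg Prod.fst h
  have h2 : (cy u : ℝ) = cy v := congrArg Prod.snd h
  have h1' : cx u = cx v := by exact_mod_cast h1
  have h2' : cy u = cy v := by exact_mod_cast h2
  revert h1' h2' 
  clear h1 h2 h
  revert u v
  decide

lemma disjoint_edges {u v x y : Fin 8} (h : (underlying D).Adj u v)
    (h' : (underlying D).Adj x y) (h1 : u ≠ x) (h2 : u ≠ y) (h3 : v ≠ x) (h4 : v ≠ y)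
    {q : ℝ × ℝ} (q1 : q ∈ segment ℝ (pos u) (pos v)) (q2 : q ∈ segment ℝ (pos x) (pos y)) :
    False := by
  have key : ∀ a b c d : Fin 8, (a, b) ∈ arcs → (c, d) ∈ arcs → a ≠ c → a ≠ d → b ≠ c →
      b ≠ d → q ∈ segment ℝ (pos a) (pos b) → q ∈ segment ℝ (pos c) (pos d) → False := by
    intro a b c d ha hc n1 n2 n3 n4 s1 s2
    rcases disjoint_arcs (a, b) ha (c, d) hc n1 n2 n3 n4 with hs | hs
    · exact separated hs s1 s2
    · exact separated hs s2 s1
  have q1' : q ∈ segment ℝ (pos v) (pos u) := by rwa [segment_symm]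
  have q2' : q ∈ segment ℝ (pos y) (pos x) := by rwa [segment_symm]
  obtain ⟨ha | ha, -⟩ := adj_cases h <;> obtain ⟨hb | hb, -⟩ := adj_cases h'
  · exact key u v x y ha hb h1 h2 h3 h4 q1 q2
  · exact key u v y x ha hb h2 h1 h4 h3 q1 q2'
  · exact key v u x y ha hb h3 h4 h1 h2 q1' q2
  · exact key v u y x ha hb h4 h3 h2 h1 q1' q2'

lemma planar : HasStraightLineDrawing (underlying D) := by
  refine ⟨pos, pos_injective, ?_, ?_⟩
  · intro u v w h hw
    by_contra hcon
    push Not at hcon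
    have h1 := orR_self u v hw
    rw [orR_pos] at h1
    exact general' h hcon.1 hcon.2 (by exact_mod_cast h1)
  · intro u v x y h h' hne q q1 q2
    have huv := (adj_cases h).2
    have hxy := (adj_cases h').2
    have q1' : q ∈ segment ℝ (pos v) (pos u) := by rwa [segment_symm]
    have q2' : q ∈ segment ℝ (pos y) (pos x) := by rwa [segment_symm]
    by_cases e1 : u = x
    · subst e1
      have hvy : y ≠ v := by
        rintro rfl
        exact hne rfl
      exact ⟨u, Or.inl rfl, Or.inl rfl, common_end (general' h hxy.symm hvy) q1 q2⟩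
    by_cases e2 : u = y
    · subst e2
      have hvx : x ≠ v := by
        rintro rfl
        exact hne Sym2.eq_swap
      exact ⟨u, Or.inl rfl, Or.inr rfl, common_end (general' h hxy hvx) q1 q2'⟩
    by_cases e3 : v = x
    · subst e3
      have huy : y ≠ u := fun e => e2 e.symm
      exact ⟨v, Or.inr rfl, Or.inl rfl, common_end (general' h.symm hxy.symm huy) q1' q2⟩
    by_cases e4 : v = y
    · subst e4
      have hux : x ≠ u := fun e => e1 e.symm
      exact ⟨v, Or.inr rfl, Or.inr rfl, common_end (general' h.symm hxy hux) q1' q2'⟩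
    exact (disjoint_edges h h' e1 e2 e3 e4 q1 q2).elim

/-! ## The digirth -/

lemma no_short : ∀ a b : Fin 8, D a b → ¬ D b a ∧ a ≠ b ∧ ∀ c : Fin 8, D b c → ¬ D c a := by
  decide

/-- a directed cycle of length four -/
def four : ZMod 4 → Fin 8 := ![0, 2, 5, 4]

lemma digirth : HasDigirth D 4 := by
  constructor
  · refine ⟨by norm_num, four, ?_, ?_⟩
    · decide
    · decide
  · rintro l ⟨hl, c, -, hc⟩
    by_contra hlt
    push Not at hlt
    interval_cases l
    · have h0 := hc 0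
      have e : (0 : ZMod 1) + 1 = 0 := by decide
      rw [e] at h0
      exact (no_short _ _ h0).2.1 rfl
    · have h0 := hc 0
      have h1 := hc 1
      have e0 : (0 : ZMod 2) + 1 = 1 := by decide
      have e1 : (1 : ZMod 2) + 1 = 0 := by decide
      rw [e0] at h0
      rw [e1] at h1
      exact (no_short _ _ h0).1 h1
    · have h0 := hc 0
      have h1 := hc 1
      have h2 := hc 2
      have e0 : (0 : ZMod 3) + 1 = 1 := by decide
      have e1 : (1 : ZMod 3) + 1 = 2 := by decide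
      have e2 : (2 : ZMod 3) + 1 = 0 := by decide
      rw [e0] at h0
      rw [e1] at h1
      rw [e2] at h2
      exact (no_short _ _ h0).2.2 _ h1 h2

/-! ## The upper bound -/

/-- a three-colouring -/
def col : Fin 8 → ZMod 3 := ![0, 0, 0, 1, 1, 2, 2, 1]

/-- rank functions increasing along the arcs within two colour classes -/
def rank : ZMod 3 → Fin 8 → ℕ := ![![1, 1, 2, 2, 0, 0, 0, 3], ![0, 0, 0, 0, 3, 2, 2, 1], ![1, 4, 2, 0, 0, 3, 0, 0]]

lemma rank_lt : ∀ (i : ZMod 3) (a b : Fin 8), D a b → (col a = i ∨ col a = i + 1) →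
    (col b = i ∨ col b = i + 1) → rank i a < rank i b := by
  decide

lemma three_colouring : IsAcyclicColouring D 3 2 col := by
  intro i v h
  have key : ∀ a b, Relation.TransGen (fun a b => a ∈ {v | ∃ j : ℕ, j < 2 ∧
      col v = i + (j : ZMod 3)} ∧ b ∈ {v | ∃ j : ℕ, j < 2 ∧ col v = i + (j : ZMod 3)} ∧ D a b)
      a b → rank i a < rank i b := by
    intro a b hab
    have aux : ∀ x : Fin 8, x ∈ {v | ∃ j : ℕ, j < 2 ∧ col v = i + (j : ZMod 3)} →
        (col x = i ∨ col x = i + 1) := by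
      rintro x ⟨j, hj, hx⟩
      interval_cases j
      · left
        simpa using hx
      · right
        simpa using hx
    have step : ∀ x y : Fin 8, (x ∈ {v | ∃ j : ℕ, j < 2 ∧ col v = i + (j : ZMod 3)} ∧
        y ∈ {v | ∃ j : ℕ, j < 2 ∧ col v = i + (j : ZMod 3)} ∧ D x y) →
        rank i x < rank i y := by
      rintro x y ⟨hx, hy, hxy⟩
      exact rank_lt i x y hxy (aux x hx) (aux y hy)
    induction hab with
    | single h => exact step _ _ h
    | tail _ h ih => exact ih.trans (step _ _ h)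
  exact lt_irrefl _ (key v v h)

/-! ## The lower bound: arithmetic -/

/-- the position `x` (in `{0, ..., k - 1}`) lies, modulo `k`, in `{s, ..., s + w - 1}` -/
def In (k w s x : ℕ) : Prop := (s ≤ x ∧ x < s + w) ∨ (s ≤ x + k ∧ x + k < s + w)

/-- `t0, t1, t2` lie in three consecutive blocks of length `w`, with steps at most `w` -/
def Bd (w t0 t1 t2 : ℕ) : Prop :=
  1 ≤ t0 ∧ t0 ≤ w ∧ w < t1 ∧ t1 ≤ 2 * w ∧ 2 * w < t2 ∧ t2 ≤ 3 * w ∧ t1 ≤ t0 + w ∧ t2 ≤ t1 + w

/-- `(t0, t1, t2)` is a rearrangement of `(a, b, c)` -/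
def Pm (a b c t0 t1 t2 : ℕ) : Prop :=
  (t0 = a ∧ t1 = b ∧ t2 = c) ∨ (t0 = a ∧ t1 = c ∧ t2 = b) ∨ (t0 = b ∧ t1 = a ∧ t2 = c) ∨
    (t0 = b ∧ t1 = c ∧ t2 = a) ∨ (t0 = c ∧ t1 = a ∧ t2 = b) ∨ (t0 = c ∧ t1 = b ∧ t2 = a)

lemma steps {k w x y z : ℕ} (hk : 3 * w < k) (x1 : 1 ≤ x) (x2 : x ≤ w) (y1 : w < y)
    (y2 : y ≤ 2 * w) (z1 : 2 * w < z) (z2 : z ≤ 3 * w)
    (e1 : In k w (x + 1) x ∨ In k w (x + 1) y ∨ In k w (x + 1) z ∨ In k w (x + 1) 0)
    (e2 : In k w (y + 1) x ∨ In k w (y + 1) y ∨ In k w (y + 1) z ∨ In k w (y + 1) 0) :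
    Bd w x y z := by
  unfold In at e1 e2
  refine ⟨x1, x2, y1, y2, z1, z2, ?_, ?_⟩ <;> omega

lemma blocks {k w a b c : ℕ} (hk : 3 * w < k) (ha : a < k) (hb : b < k) (hc : c < k)
    (h : ∀ s ≤ k, In k w s a ∨ In k w s b ∨ In k w s c ∨ In k w s 0) :
    ((1 ≤ a ∧ a ≤ w) ∨ (1 ≤ b ∧ b ≤ w) ∨ (1 ≤ c ∧ c ≤ w)) ∧
    ((w < a ∧ a ≤ 2 * w) ∨ (w < b ∧ b ≤ 2 * w) ∨ (w < c ∧ c ≤ 2 * w)) ∧
    ((2 * w < a ∧ a ≤ 3 * w) ∨ (2 * w < b ∧ b ≤ 3 * w) ∨ (2 * w < c ∧ c ≤ 3 * w)) := by
  refine ⟨?_, ?_, ?_⟩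
  · have := h 1 (by omega)
    unfold In at this
    omega
  · have := h (w + 1) (by omega)
    unfold In at this
    omega
  · have := h (2 * w + 1) (by omega)
    unfold In at this
    omega

lemma or_perm1 {p : ℕ → Prop} {a b c z : ℕ} (h : p a ∨ p b ∨ p c ∨ p z) :
    p a ∨ p c ∨ p b ∨ p z := by tauto

lemma or_perm2 {p : ℕ → Prop} {a b c z : ℕ} (h : p a ∨ p b ∨ p c ∨ p z) :
    p b ∨ p a ∨ p c ∨ p z := by tauto

lemma or_perm3 {p : ℕ → Prop} {a b c z : ℕ} (h : p a ∨ p b ∨ p c ∨ p z) :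
    p b ∨ p c ∨ p a ∨ p z := by tauto

lemma or_perm4 {p : ℕ → Prop} {a b c z : ℕ} (h : p a ∨ p b ∨ p c ∨ p z) :
    p c ∨ p a ∨ p b ∨ p z := by tauto

lemma or_perm5 {p : ℕ → Prop} {a b c z : ℕ} (h : p a ∨ p b ∨ p c ∨ p z) :
    p c ∨ p b ∨ p a ∨ p z := by tauto

lemma sorted {k w a b c : ℕ} (hk : 3 * w < k) (ha : a < k) (hb : b < k) (hc : c < k)
    (h : ∀ s ≤ k, In k w s a ∨ In k w s b ∨ In k w s c ∨ In k w s 0) :
    ∃ t0 t1 t2, Pm a b c t0 t1 t2 ∧ Bd w t0 t1 t2 := by
  obtain ⟨h1, h2, h3⟩ := blocks hk ha hb hc h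
  rcases h1 with h1 | h1 | h1
  · rcases h2 with h2 | h2 | h2
    · exfalso
      omega
    · rcases h3 with h3 | h3 | h3
      · exfalso
        omega
      · exfalso
        omega
      · exact ⟨a, b, c, by simp [Pm], steps hk h1.1 h1.2 h2.1 h2.2 h3.1 h3.2
          (h _ (by omega))
          (h _ (by omega))⟩
    · rcases h3 with h3 | h3 | h3
      · exfalso
        omega
      · exact ⟨a, c, b, by simp [Pm], steps hk h1.1 h1.2 h2.1 h2.2 h3.1 h3.2
          (or_perm1 (p := In k w (a + 1)) (h _ (by omega)))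
          (or_perm1 (p := In k w (c + 1)) (h _ (by omega)))⟩
      · exfalso
        omega
  · rcases h2 with h2 | h2 | h2
    · rcases h3 with h3 | h3 | h3
      · exfalso
        omega
      · exfalso
        omega
      · exact ⟨b, a, c, by simp [Pm], steps hk h1.1 h1.2 h2.1 h2.2 h3.1 h3.2
          (or_perm2 (p := In k w (b + 1)) (h _ (by omega)))
          (or_perm2 (p := In k w (a + 1)) (h _ (by omega)))⟩
    · exfalso
      omega
    · rcases h3 with h3 | h3 | h3
      · exact ⟨b, c, a, by simp [Pm], steps hk h1.1 h1.2 h2.1 h2.2 h3.1 h3.2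
          (or_perm3 (p := In k w (b + 1)) (h _ (by omega)))
          (or_perm3 (p := In k w (c + 1)) (h _ (by omega)))⟩
      · exfalso
        omega
      · exfalso
        omega
  · rcases h2 with h2 | h2 | h2
    · rcases h3 with h3 | h3 | h3
      · exfalso
        omega
      · exact ⟨c, a, b, by simp [Pm], steps hk h1.1 h1.2 h2.1 h2.2 h3.1 h3.2
          (or_perm4 (p := In k w (c + 1)) (h _ (by omega)))
          (or_perm4 (p := In k w (a + 1)) (h _ (by omega)))⟩
      · exfalso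
        omega
    · rcases h3 with h3 | h3 | h3
      · exact ⟨c, b, a, by simp [Pm], steps hk h1.1 h1.2 h2.1 h2.2 h3.1 h3.2
          (or_perm5 (p := In k w (c + 1)) (h _ (by omega)))
          (or_perm5 (p := In k w (b + 1)) (h _ (by omega)))⟩
      · exfalso
        omega
      · exfalso
        omega
    · exfalso
      omega

/-- the position of the last entry -/
lemma position {a b c t0 t1 t2 : ℕ} (h : Pm a b c t0 t1 t2) :
    (c = t0 ∧ ((a = t1 ∧ b = t2) ∨ (a = t2 ∧ b = t1))) ∨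
      (c = t1 ∧ ((a = t0 ∧ b = t2) ∨ (a = t2 ∧ b = t0))) ∨
      (c = t2 ∧ ((a = t0 ∧ b = t1) ∨ (a = t1 ∧ b = t0))) := by
  rcases h with ⟨rfl, rfl, rfl⟩ | ⟨rfl, rfl, rfl⟩ | ⟨rfl, rfl, rfl⟩ | ⟨rfl, rfl, rfl⟩ |
    ⟨rfl, rfl, rfl⟩ | ⟨rfl, rfl, rfl⟩ <;> simp

lemma differ {k w y l l' p q r z p' q' r' : ℕ} (hk : k > 3 * w) (hy : y < k)
    (hl : l = 0 ∨ l = w ∨ l = 2 * w) (hl' : l' = 0 ∨ l' = w ∨ l' = 2 * w) (hne : l ≠ l')
    (hp : p ≤ l ∨ (l + w < p ∧ p < k)) (hq : q ≤ l ∨ (l + w < q ∧ q < k))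
    (hr : r ≤ l ∨ (l + w < r ∧ r < k))
    (hp' : p' ≤ l' ∨ (l' + w < p' ∧ p' < k)) (hq' : q' ≤ l' ∨ (l' + w < q' ∧ q' < k))
    (hr' : r' ≤ l' ∨ (l' + w < r' ∧ r' < k)) (hz : z = y)
    (hQ : In k w (l + 1) p ∨ In k w (l + 1) q ∨ In k w (l + 1) r ∨ In k w (l + 1) y)
    (hS : In k w (l' + 1) p' ∨ In k w (l' + 1) q' ∨ In k w (l' + 1) r' ∨ In k w (l' + 1) z) :
    False := by
  have key : ∀ m x : ℕ, (m = 0 ∨ m = w ∨ m = 2 * w) → (x ≤ m ∨ (m + w < x ∧ x < k)) →
      ¬ In k w (m + 1) x := by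
    intro m x hm hx hin
    unfold In at hin
    omega
  have a1 : In k w (l + 1) y := by
    rcases hQ with h | h | h | h
    · exact (key _ _ hl hp h).elim
    · exact (key _ _ hl hq h).elim
    · exact (key _ _ hl hr h).elim
    · exact h
  have a2 : In k w (l' + 1) z := by
    rcases hS with h | h | h | h
    · exact (key _ _ hl' hp' h).elim
    · exact (key _ _ hl' hq' h).elim
    · exact (key _ _ hl' hr' h).elim
    · exact h
  subst hz
  unfold In at a1 a2
  omega

lemma same0 {k w y t0 t1 t2 u0 u1 u2 : ℕ} (hk : 3 * w < k) (hy : y < k)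
    (ht : Bd w t0 t1 t2) (hu : Bd w u0 u1 u2) (hlt : u0 + k ≤ t2 + w)
    (hQ : In k w (t1 - w) t1 ∨ In k w (t1 - w) t2 ∨ In k w (t1 - w) u0 ∨ In k w (t1 - w) y)
    (hS : In k w (u2 + 1) u1 ∨ In k w (u2 + 1) u2 ∨ In k w (u2 + 1) t0 ∨
      In k w (u2 + 1) y) : False := by
  obtain ⟨t1', t2', t3', t4', t5', t6', t7', t8'⟩ := ht
  obtain ⟨u1', u2', u3', u4', u5', u6', u7', u8'⟩ := hu
  have a1 : In k w (t1 - w) y := by
    rcases hQ with h | h | h | h
    · exfalso; unfold In at h; omega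
    · exfalso; unfold In at h; omega
    · exfalso; unfold In at h; omega
    · exact h
  have a2 : In k w (u2 + 1) y := by
    rcases hS with h | h | h | h
    · exfalso; unfold In at h; omega
    · exfalso; unfold In at h; omega
    · exfalso; unfold In at h; omega
    · exact h
  unfold In at a1 a2
  omega

lemma same1 {k w y t0 t1 t2 u0 u1 u2 : ℕ} (hk : 3 * w < k) (hy : y < k)
    (ht : Bd w t0 t1 t2) (hu : Bd w u0 u1 u2) (hlt : u0 + k ≤ t2 + w)
    (hQ : In k w (t2 - w) t0 ∨ In k w (t2 - w) t2 ∨ In k w (t2 - w) u1 ∨ In k w (t2 - w) y)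
    (hS : In k w (u0 + 1) u0 ∨ In k w (u0 + 1) u2 ∨ In k w (u0 + 1) t1 ∨
      In k w (u0 + 1) y) : False := by
  obtain ⟨t1', t2', t3', t4', t5', t6', t7', t8'⟩ := ht
  obtain ⟨u1', u2', u3', u4', u5', u6', u7', u8'⟩ := hu
  have a1 : In k w (t2 - w) y := by
    rcases hQ with h | h | h | h
    · exfalso; unfold In at h; omega
    · exfalso; unfold In at h; omega
    · exfalso; unfold In at h; omega
    · exact h
  have a2 : In k w (u0 + 1) y := by
    rcases hS with h | h | h | h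
    · exfalso; unfold In at h; omega
    · exfalso; unfold In at h; omega
    · exfalso; unfold In at h; omega
    · exact h
  unfold In at a1 a2
  omega

lemma same2 {k w y t0 t1 t2 u0 u1 u2 : ℕ} (hk : 3 * w < k) (hy : y < k)
    (ht : Bd w t0 t1 t2) (hu : Bd w u0 u1 u2) (hlt : u0 + k ≤ t2 + w)
    (hQ : In k w (t0 + k - w) t0 ∨ In k w (t0 + k - w) t1 ∨ In k w (t0 + k - w) u2 ∨
      In k w (t0 + k - w) y)
    (hS : In k w (u1 + 1) u0 ∨ In k w (u1 + 1) u1 ∨ In k w (u1 + 1) t2 ∨
      In k w (u1 + 1) y) : False := by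
  obtain ⟨t1', t2', t3', t4', t5', t6', t7', t8'⟩ := ht
  obtain ⟨u1', u2', u3', u4', u5', u6', u7', u8'⟩ := hu
  have a1 : In k w (t0 + k - w) y := by
    rcases hQ with h | h | h | h
    · exfalso; unfold In at h; omega
    · exfalso; unfold In at h; omega
    · exfalso; unfold In at h; omega
    · exact h
  have a2 : In k w (u1 + 1) y := by
    rcases hS with h | h | h | h
    · exfalso; unfold In at h; omega
    · exfalso; unfold In at h; omega
    · exfalso; unfold In at h; omega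
    · exact h
  unfold In at a1 a2
  omega

/-- the case in which the second triple comes first within the blocks -/
lemma core {k w a b c a' b' c' y t0 t1 t2 u0 u1 u2 : ℕ} (hk : 3 * w < k) (hy : y < k)
    (hp : Pm a b c t0 t1 t2) (ht : Bd w t0 t1 t2) (hp' : Pm a' b' c' u0 u1 u2)
    (hu : Bd w u0 u1 u2) (hlt : u0 + k ≤ t2 + w)
    (hQ : ∀ s ≤ k, In k w s a ∨ In k w s b ∨ In k w s c' ∨ In k w s y)
    (hS : ∀ s ≤ k, In k w s a' ∨ In k w s b' ∨ In k w s c ∨ In k w s y) : False := by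
  have hQ' : ∀ i j : ℕ, ((a = i ∧ b = j) ∨ (a = j ∧ b = i)) → ∀ s ≤ k,
      In k w s i ∨ In k w s j ∨ In k w s c' ∨ In k w s y := by
    rintro i j (⟨rfl, rfl⟩ | ⟨rfl, rfl⟩) s hs
    · exact hQ s hs
    · exact or_perm2 (p := In k w s) (hQ s hs)
  have hS' : ∀ i j : ℕ, ((a' = i ∧ b' = j) ∨ (a' = j ∧ b' = i)) → ∀ s ≤ k,
      In k w s i ∨ In k w s j ∨ In k w s c ∨ In k w s y := by
    rintro i j (⟨rfl, rfl⟩ | ⟨rfl, rfl⟩) s hs
    · exact hS s hs
    · exact or_perm2 (p := In k w s) (hS s hs)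
  have ht' := ht
  have hu' := hu
  obtain ⟨t1', t2', t3', t4', t5', t6', t7', t8'⟩ := ht'
  obtain ⟨u1', u2', u3', u4', u5', u6', u7', u8'⟩ := hu'
  have hT := position hp
  have hU := position hp'
  clear hp hp' hQ hS
  rcases hT with ⟨rfl, hT⟩ | ⟨rfl, hT⟩ | ⟨rfl, hT⟩ <;>
    rcases hU with ⟨rfl, hU⟩ | ⟨rfl, hU⟩ | ⟨rfl, hU⟩
  · exact same0 hk hy ht hu hlt (hQ' _ _ hT _ (by omega)) (hS' _ _ hU _ (by omega))
  · exact differ (l := 0) (l' := w) hk hy (by omega) (by omega) (by omega) (by omega)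
      (by omega) (by omega) (by omega) (by omega) (by omega) rfl (hQ' _ _ hT _ (by omega))
      (hS' _ _ hU _ (by omega))
  · exact differ (l := 0) (l' := 2 * w) hk hy (by omega) (by omega) (by omega) (by omega)
      (by omega) (by omega) (by omega) (by omega) (by omega) rfl (hQ' _ _ hT _ (by omega))
      (hS' _ _ hU _ (by omega))
  · exact differ (l := w) (l' := 0) hk hy (by omega) (by omega) (by omega) (by omega)
      (by omega) (by omega) (by omega) (by omega) (by omega) rfl (hQ' _ _ hT _ (by omega))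
      (hS' _ _ hU _ (by omega))
  · exact same1 hk hy ht hu hlt (hQ' _ _ hT _ (by omega)) (hS' _ _ hU _ (by omega))
  · exact differ (l := w) (l' := 2 * w) hk hy (by omega) (by omega) (by omega) (by omega)
      (by omega) (by omega) (by omega) (by omega) (by omega) rfl (hQ' _ _ hT _ (by omega))
      (hS' _ _ hU _ (by omega))
  · exact differ (l := 2 * w) (l' := 0) hk hy (by omega) (by omega) (by omega) (by omega)
      (by omega) (by omega) (by omega) (by omega) (by omega) rfl (hQ' _ _ hT _ (by omega))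
      (hS' _ _ hU _ (by omega))
  · exact differ (l := 2 * w) (l' := w) hk hy (by omega) (by omega) (by omega) (by omega)
      (by omega) (by omega) (by omega) (by omega) (by omega) rfl (hQ' _ _ hT _ (by omega))
      (hS' _ _ hU _ (by omega))
  · exact same2 hk hy ht hu hlt (hQ' _ _ hT _ (by omega)) (hS' _ _ hU _ (by omega))

lemma good_or {a b c t0 t1 t2 : ℕ} (h : Pm a b c t0 t1 t2) (p : ℕ → Prop)
    (hp : p a ∨ p b ∨ p c) : p t0 ∨ p t1 ∨ p t2 := by
  rcases h with ⟨rfl, rfl, rfl⟩ | ⟨rfl, rfl, rfl⟩ | ⟨rfl, rfl, rfl⟩ | ⟨rfl, rfl, rfl⟩ |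
    ⟨rfl, rfl, rfl⟩ | ⟨rfl, rfl, rfl⟩ <;> tauto

lemma arithmetic {k w a b c a' b' c' y : ℕ} (hk : 3 * w < k) (ha : a < k) (hb : b < k)
    (hc : c < k) (ha' : a' < k) (hb' : b' < k) (hc' : c' < k) (hy : y < k)
    (hP : ∀ s ≤ k, In k w s a ∨ In k w s b ∨ In k w s c ∨ In k w s 0)
    (hR : ∀ s ≤ k, In k w s a' ∨ In k w s b' ∨ In k w s c' ∨ In k w s 0)
    (hQ : ∀ s ≤ k, In k w s a ∨ In k w s b ∨ In k w s c' ∨ In k w s y)
    (hS : ∀ s ≤ k, In k w s a' ∨ In k w s b' ∨ In k w s c ∨ In k w s y)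
    (hH : ∀ s ≤ k, In k w s a ∨ In k w s b ∨ In k w s c ∨ In k w s a' ∨ In k w s b' ∨
      In k w s c') : False := by
  obtain ⟨t0, t1, t2, hp, ht⟩ := sorted hk ha hb hc hP
  obtain ⟨u0, u1, u2, hp', hu⟩ := sorted hk ha' hb' hc' hR
  have hH' : ∀ s ≤ k, In k w s t0 ∨ In k w s t1 ∨ In k w s t2 ∨ In k w s u0 ∨ In k w s u1 ∨
      In k w s u2 := by
    intro s hs
    have e := hH s hs
    have e' : (In k w s a ∨ In k w s b ∨ In k w s c) ∨
        (In k w s a' ∨ In k w s b' ∨ In k w s c') := by tauto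
    rcases e' with e' | e'
    · have := good_or hp (In k w s) e'
      tauto
    · have := good_or hp' (In k w s) e'
      tauto
  have ht' := ht
  have hu' := hu
  obtain ⟨t1', t2', t3', t4', t5', t6', t7', t8'⟩ := ht'
  obtain ⟨u1', u2', u3', u4', u5', u6', u7', u8'⟩ := hu'
  rcases le_total t2 u2 with hle | hle
  · have e := hH' (u2 + 1) (by omega)
    have : t0 + k ≤ u2 + w := by
      rcases e with e | e | e | e | e | e <;> (unfold In at e; omega)
    exact core hk hy hp' hu hp ht this hS hQ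
  · have e := hH' (t2 + 1) (by omega)
    have : u0 + k ≤ t2 + w := by
      rcases e with e | e | e | e | e | e <;> (unfold In at e; omega)
    exact core hk hy hp ht hp' hu this hQ hS

/-! ## The lower bound -/

/-- if all vertices of a set avoid the window `{s, ..., s + w - 1}` then they lie in a set which
is acyclic -/
lemma outside {k d : ℕ} [NeZero k] (hdk : d ≤ k) (c : Fin 8 → ZMod k) {s : ℕ} (hs : s ≤ k)
    {v : Fin 8} (hv : ¬ In k (k - d) s (c v - c 4).val) :
    ∃ j : ℕ, j < d ∧ c v = (c 4 + ((s + (k - d) : ℕ) : ZMod k)) + (j : ZMod k) := by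
  have hlt : (c v - c 4).val < k := ZMod.val_lt _
  have e : c v = c 4 + (((c v - c 4).val : ℕ) : ZMod k) := by
    rw [ZMod.natCast_val, ZMod.cast_id]
    ring
  have ek : ((k : ℕ) : ZMod k) = 0 := ZMod.natCast_self k
  unfold In at hv
  push Not at hv
  obtain ⟨h1, h2⟩ := hv
  by_cases h : s ≤ (c v - c 4).val
  · have h3 := h1 h
    refine ⟨(c v - c 4).val - (s + (k - d)), by omega, ?_⟩
    have e2 : (s + (k - d)) + ((c v - c 4).val - (s + (k - d))) = (c v - c 4).val := by omega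
    rw [add_assoc, ← Nat.cast_add, e2]
    exact e
  · have h3 := h2 (by omega)
    refine ⟨(c v - c 4).val + k - (s + (k - d)), by omega, ?_⟩
    have e2 : (s + (k - d)) + ((c v - c 4).val + k - (s + (k - d))) =
        (c v - c 4).val + k := by omega
    rw [add_assoc, ← Nat.cast_add, e2, Nat.cast_add, ek, add_zero]
    exact e

lemma window4 {k d : ℕ} [NeZero k] (hdk : d ≤ k) {c : Fin 8 → ZMod k}
    (hc : IsAcyclicColouring D k d c) {x y z t : Fin 8} (h1 : D x y) (h2 : D y z) (h3 : D z t)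
    (h4 : D t x) (s : ℕ) (hs : s ≤ k) :
    In k (k - d) s (c x - c 4).val ∨ In k (k - d) s (c y - c 4).val ∨
      In k (k - d) s (c z - c 4).val ∨ In k (k - d) s (c t - c 4).val := by
  by_contra hcon
  push Not at hcon
  obtain ⟨m1, m2, m3, m4⟩ := hcon
  have n1 := outside hdk c hs m1
  have n2 := outside hdk c hs m2
  have n3 := outside hdk c hs m3
  have n4 := outside hdk c hs m4
  exact hc _ x ((((Relation.TransGen.single ⟨n1, n2, h1⟩).tail ⟨n2, n3, h2⟩).tail
    ⟨n3, n4, h3⟩).tail ⟨n4, n1, h4⟩)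

lemma window6 {k d : ℕ} [NeZero k] (hdk : d ≤ k) {c : Fin 8 → ZMod k}
    (hc : IsAcyclicColouring D k d c) (s : ℕ) (hs : s ≤ k) :
    In k (k - d) s (c 0 - c 4).val ∨ In k (k - d) s (c 2 - c 4).val ∨
      In k (k - d) s (c 5 - c 4).val ∨ In k (k - d) s (c 1 - c 4).val ∨
      In k (k - d) s (c 3 - c 4).val ∨ In k (k - d) s (c 6 - c 4).val := by
  by_contra hcon
  push Not at hcon
  obtain ⟨m1, m2, m3, m4, m5, m6⟩ := hcon
  have n1 := outside hdk c hs m1
  have n2 := outside hdk c hs m2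
  have n3 := outside hdk c hs m3
  have n4 := outside hdk c hs m4
  have n5 := outside hdk c hs m5
  have n6 := outside hdk c hs m6
  have e1 : D 0 2 := by decide
  have e2 : D 2 5 := by decide
  have e3 : D 5 1 := by decide
  have e4 : D 1 3 := by decide
  have e5 : D 3 6 := by decide
  have e6 : D 6 0 := by decide
  exact hc _ 0 ((((((Relation.TransGen.single ⟨n1, n2, e1⟩).tail ⟨n2, n3, e2⟩).tail
    ⟨n3, n4, e3⟩).tail ⟨n4, n5, e4⟩).tail ⟨n5, n6, e5⟩).tail ⟨n6, n1, e6⟩)

lemma no_small_ratio {k d : ℕ} (hdk : d ≤ k) (hk : 2 * k < 3 * d)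
    {c : Fin 8 → ZMod k} (hc : IsAcyclicColouring D k d c) : False := by
  have : NeZero k := ⟨by omega⟩
  have b : ∀ v : Fin 8, (c v - c 4).val < k := fun v => ZMod.val_lt _
  have z : (c 4 - c 4).val = 0 := by simp
  refine arithmetic (k := k) (w := k - d) (a := (c 0 - c 4).val) (b := (c 2 - c 4).val)
    (c := (c 5 - c 4).val) (a' := (c 1 - c 4).val) (b' := (c 3 - c 4).val)
    (c' := (c 6 - c 4).val) (y := (c 7 - c 4).val) (by omega) (b _) (b _) (b _) (b _) (b _)
    (b _) (b _) ?_ ?_ ?_ ?_ ?_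
  · intro s hs
    have := window4 hdk hc (x := 0) (y := 2) (z := 5) (t := 4) (by decide) (by decide)
      (by decide) (by decide) s hs
    rwa [z] at this
  · intro s hs
    have := window4 hdk hc (x := 1) (y := 3) (z := 6) (t := 4) (by decide) (by decide)
      (by decide) (by decide) s hs
    rwa [z] at this
  · intro s hs
    have := window4 hdk hc (x := 0) (y := 2) (z := 7) (t := 6) (by decide) (by decide)
      (by decide) (by decide) s hs
    tauto
  · intro s hs
    have := window4 hdk hc (x := 1) (y := 3) (z := 7) (t := 5) (by decide) (by decide)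
      (by decide) (by decide) s hs
    tauto
  · intro s hs
    exact window6 hdk hc s hs

lemma isLeast : IsLeast (ratios D) (3 / 2) := by
  constructor
  · exact ⟨3, 2, by norm_num, by norm_num, ⟨col, three_colouring⟩, by norm_num⟩
  · rintro q ⟨k, d, hd, hdk, ⟨c, hc⟩, rfl⟩
    by_contra hlt
    push Not at hlt
    have hd' : (0 : ℝ) < d := by exact_mod_cast hd
    rw [div_lt_div_iff₀ hd' (by norm_num)] at hlt
    have hlt' : k * 2 < 3 * d := by exact_mod_cast hlt
    exact no_small_ratio hdk (by omega) hc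

/-- There is a planar digraph (on eight vertices, without loops and opposite arcs) of digirth
`g = 4` whose star dichromatic number is exactly `(g - 1) / (g - 2) = 3 / 2`; moreover the
infimum defining the star dichromatic number is attained. -/
theorem result :
    (∃ A : Fin 8 → Fin 8 → Prop, IsSimpleDigraph A ∧ HasStraightLineDrawing (underlying A) ∧
      HasDigirth A 4 ∧ IsLeast (ratios A) (3 / 2) ∧ starDichromatic A = 3 / 2) ∧
    (∃ g : ℕ, 4 ≤ g ∧ ∃ n : ℕ, ∃ A : Fin n → Fin n → Prop, IsSimpleDigraph A ∧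
      HasStraightLineDrawing (underlying A) ∧ HasDigirth A g ∧
      starDichromatic A = ((g : ℝ) - 1) / ((g : ℝ) - 2)) := by
  have hD : IsSimpleDigraph D := ⟨by decide, by decide⟩
  refine ⟨⟨D, hD, planar, digirth, isLeast, isLeast.csInf_eq⟩,
    4, le_rfl, 8, D, hD, planar, digirth, ?_⟩
  rw [starDichromatic, isLeast.csInf_eq]
  norm_num

end Pool.Agent.Results.MP_ff0133_co.EightVertices
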